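import Mathlib
import Pool.Agent.V8H37.Roabp.Defs2

/-!
# Numerical bounds for the hitting sets for read-once oblivious branching programs
(second version of the parameters)
-/

set_option autoImplicit false

namespace Pool.Agent.V8H37.Roabp2

theorem npar_le (k w : ℕ) (hk : 1 ≤ k) (hw : 1 ≤ w) : npar k w ≤ 8 * k * w ^ 2 := by
  unfold npar
  have h1 : (w + 1) ^ 2 ≤ 4 * w ^ 2 := by nlinarith
  calc (k + 1) * (w + 1) ^ 2 ≤ (2 * k) * (4 * w ^ 2) := Nat.mul_le_mul (by omega) h1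
    _ = 8 * k * w ^ 2 := by ring

theorem side_le_pow (k w l : ℕ) (hk : 1 ≤ k) (hl : k * w ≤ 2 ^ l) :
    side k w ≤ 2 ^ (2 * l + 4) := by
  unfold side
  have h1 : k * w ^ 2 ≤ (k * w) ^ 2 := by
    have : k ≤ k ^ 2 := by nlinarith
    calc k * w ^ 2 ≤ k ^ 2 * w ^ 2 := Nat.mul_le_mul_right _ this
      _ = (k * w) ^ 2 := by ring
  have h2 : (k * w) ^ 2 ≤ (2 ^ l) ^ 2 := Nat.pow_le_pow_left hl 2
  calc 16 * k * w ^ 2 = 16 * (k * w ^ 2) := by ring
    _ ≤ 16 * (2 ^ l) ^ 2 := Nat.mul_le_mul_left _ (h1.trans h2)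
    _ = 2 ^ (2 * l + 4) := by rw [← pow_mul, pow_add, mul_comm l 2]; ring

theorem kside_le_pow (k w l : ℕ) (hl : k * w ≤ 2 ^ l) :
    2 * k * side k w + 2 ≤ 2 ^ (2 * l + 6) := by
  have h2 : (k * w) ^ 2 ≤ (2 ^ l) ^ 2 := Nat.pow_le_pow_left hl 2
  have h3 : 1 ≤ (2 ^ l) ^ 2 := Nat.one_le_pow _ _ (by positivity)
  have e : 2 ^ (2 * l + 6) = 64 * (2 ^ l) ^ 2 := by
    rw [← pow_mul, pow_add, mul_comm l 2]; ring
  unfold side
  rw [e]
  calc 2 * k * (16 * k * w ^ 2) + 2 = 32 * (k * w) ^ 2 + 2 := by ring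
    _ ≤ 64 * (2 ^ l) ^ 2 := by omega

theorem clog_le_of_le_pow' {x e : ℕ} (h : x ≤ 2 ^ e) : Nat.clog 2 x ≤ e :=
  Nat.clog_le_of_le_pow h

theorem add_three_le (l : ℕ) : l + 3 ≤ 2 ^ (l + 2) := by
  have h13 : l + 1 ≤ 2 ^ l := Nat.lt_two_pow_self
  rw [pow_add]; omega

theorem rounds_le (k w l : ℕ) (hk : 1 ≤ k) (hw : 1 ≤ w) (hl : k * w ≤ 2 ^ l) :
    rounds k w ≤ 2 ^ (3 * l + 8) := by
  unfold rounds
  have h1 := side_le_pow k w l hk hl
  have h2 := kside_le_pow k w l hl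
  have h3 : side k w ^ k ≤ 2 ^ ((2 * l + 4) * k) := by
    calc side k w ^ k ≤ (2 ^ (2 * l + 4)) ^ k := Nat.pow_le_pow_left h1 k
      _ = _ := by rw [← pow_mul]
  have h4 : side k w ^ k * (2 * k * side k w + 2) + 1 ≤ 2 ^ ((2 * l + 4) * k + 2 * l + 7) := by
    have h5 : side k w ^ k * (2 * k * side k w + 2) ≤ 2 ^ ((2 * l + 4) * k) * 2 ^ (2 * l + 6) :=
      Nat.mul_le_mul h3 h2
    rw [← pow_add] at h5
    have h6 : 1 ≤ 2 ^ ((2 * l + 4) * k + (2 * l + 6)) := Nat.one_le_two_pow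
    calc side k w ^ k * (2 * k * side k w + 2) + 1
        ≤ 2 ^ ((2 * l + 4) * k + (2 * l + 6)) + 2 ^ ((2 * l + 4) * k + (2 * l + 6)) := by omega
      _ = 2 ^ ((2 * l + 4) * k + 2 * l + 7) := by
          rw [show (2 * l + 4) * k + 2 * l + 7 = ((2 * l + 4) * k + (2 * l + 6)) + 1 by ring,
            pow_succ]; ring
  have h7 : Nat.clog 2 (side k w ^ k * (2 * k * side k w + 2) + 1) ≤ k * (4 * l + 11) := by
    refine (clog_le_of_le_pow' h4).trans ?_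
    nlinarith
  have h8 := npar_le k w hk hw
  have h10 : (k * w) ^ 2 ≤ (2 ^ l) ^ 2 := Nat.pow_le_pow_left hl 2
  have h12 : 4 * l + 12 ≤ 4 * 2 ^ (l + 2) := by
    have := add_three_le l
    omega
  have h16 : 1 ≤ (k * w) ^ 2 := Nat.one_le_pow _ _ (Nat.mul_pos hk hw)
  calc npar k w * Nat.clog 2 (side k w ^ k * (2 * k * side k w + 2) + 1) + 1
      ≤ (8 * k * w ^ 2) * (k * (4 * l + 11)) + 1 := by
        have := Nat.mul_le_mul h8 h7
        omega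
    _ = 8 * (k * w) ^ 2 * (4 * l + 11) + 1 := by ring
    _ ≤ 8 * (k * w) ^ 2 * (4 * l + 12) := by
        have : 8 * (k * w) ^ 2 * (4 * l + 12) = 8 * (k * w) ^ 2 * (4 * l + 11) + 8 * (k * w) ^ 2 := by
          ring
        omega
    _ ≤ 8 * (2 ^ l) ^ 2 * (4 * 2 ^ (l + 2)) :=
        Nat.mul_le_mul (Nat.mul_le_mul_left _ h10) h12
    _ = 2 ^ (3 * l + 7) := by
        rw [show 3 * l + 7 = 3 * l + 7 by rfl, ← pow_mul, pow_add 2 l 2, pow_add 2 (3 * l) 7,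
          show l * 2 = l + l by ring, show 3 * l = l + l + l by ring, pow_add, pow_add]
        ring
    _ ≤ 2 ^ (3 * l + 8) := Nat.pow_le_pow_right (by norm_num) (by omega)

theorem pts_le (k w l : ℕ) (hk : 1 ≤ k) (hw : 1 ≤ w) (hl : k * w ≤ 2 ^ l) :
    pts k w ≤ 48 * k * w ^ 2 * (l + 3) := by
  unfold pts
  have h1 := rounds_le k w l hk hw hl
  have h2 := kside_le_pow k w l hl
  have h3 : rounds k w * (2 * k * side k w + 2) + 1 ≤ 2 ^ (5 * l + 15) := by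
    have h4 : rounds k w * (2 * k * side k w + 2) ≤ 2 ^ (3 * l + 8) * 2 ^ (2 * l + 6) :=
      Nat.mul_le_mul h1 h2
    rw [← pow_add] at h4
    have h6 : 1 ≤ 2 ^ (3 * l + 8 + (2 * l + 6)) := Nat.one_le_two_pow
    calc rounds k w * (2 * k * side k w + 2) + 1
        ≤ 2 ^ (3 * l + 8 + (2 * l + 6)) + 2 ^ (3 * l + 8 + (2 * l + 6)) := by omega
      _ = 2 ^ (5 * l + 15) := by
          rw [show 5 * l + 15 = (3 * l + 8 + (2 * l + 6)) + 1 by ring, pow_succ]; ring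
  have h5 := clog_le_of_le_pow' h3
  have h6 := npar_le k w hk hw
  have h7 : 1 ≤ 8 * k * w ^ 2 := by
    have : 1 ≤ w ^ 2 := Nat.one_le_pow _ _ hw
    nlinarith
  calc npar k w * Nat.clog 2 (rounds k w * (2 * k * side k w + 2) + 1) + 1
      ≤ 8 * k * w ^ 2 * (5 * l + 15) + 1 := by
        have := Nat.mul_le_mul h6 h5
        omega
    _ ≤ 8 * k * w ^ 2 * (6 * (l + 3)) := by
        have e : 8 * k * w ^ 2 * (6 * (l + 3)) =
            8 * k * w ^ 2 * (5 * l + 15) + 8 * k * w ^ 2 * (l + 3) := by ring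
        have : 8 * k * w ^ 2 * 1 ≤ 8 * k * w ^ 2 * (l + 3) := Nat.mul_le_mul_left _ (by omega)
        omega
    _ = 48 * k * w ^ 2 * (l + 3) := by ring

theorem pts_pos (k w : ℕ) : 1 ≤ pts k w := by unfold pts; omega

theorem pow_clog_le {k n m : ℕ} (hk : 2 ≤ k) (hm : 1 ≤ m) :
    m ^ Nat.clog k n ≤ m * m ^ Nat.log k n := by
  have h1 : Nat.clog k n ≤ Nat.log k n + 1 := by
    apply Nat.clog_le_of_le_pow
    exact (Nat.lt_pow_succ_log_self (by omega) n).le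
  calc m ^ Nat.clog k n ≤ m ^ (Nat.log k n + 1) := Nat.pow_le_pow_right hm h1
    _ = m * m ^ Nat.log k n := by rw [pow_succ, mul_comm]

theorem exists_k (w : ℕ) (hw : 1 ≤ w) (ε : ℝ) (hε : 0 < ε) :
    ∃ k : ℕ, 2 ≤ k ∧ ((2 * pts k w : ℕ) : ℝ) ≤ (k : ℝ) ^ (1 + ε) := by
  have hr : (1 : ℝ) < 2 ^ ε := Real.one_lt_rpow (by norm_num) hε
  have ht := tendsto_pow_const_div_const_pow_of_one_lt 1 hr
  set A : ℝ := 96 * w ^ 2 * ((Nat.clog 2 w : ℝ) + 4) with hA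
  have hA0 : 0 < A := by positivity
  have h1 := (ht.eventually (gt_mem_nhds (show (0 : ℝ) < 1 / A by positivity))).and
    (Filter.eventually_ge_atTop 1)
  obtain ⟨j, hj, hj1⟩ := h1.exists
  refine ⟨2 ^ j, ?_, ?_⟩
  · calc 2 = 2 ^ 1 := by norm_num
      _ ≤ 2 ^ j := Nat.pow_le_pow_right (by norm_num) hj1
  have hl : 2 ^ j * w ≤ 2 ^ (j + Nat.clog 2 w) := by
    rw [pow_add]
    exact Nat.mul_le_mul_left _ (Nat.le_pow_clog (by norm_num) w)
  have hp := pts_le (2 ^ j) w (j + Nat.clog 2 w) Nat.one_le_two_pow hw hl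
  have hp' : ((pts (2 ^ j) w : ℕ) : ℝ) ≤
      48 * 2 ^ j * w ^ 2 * (((j : ℝ) + Nat.clog 2 w) + 3) := by
    have := (Nat.cast_le (α := ℝ)).mpr hp
    push_cast at this
    exact this
  have hj2 : (1 : ℝ) ≤ j := by exact_mod_cast hj1
  have hpw : (0 : ℝ) < (2 ^ ε) ^ j := by positivity
  have h2 : A * j ≤ (2 ^ ε) ^ j := by
    rw [pow_one, div_lt_div_iff₀ hpw hA0] at hj
    linarith
  have h3 : (((2 ^ j : ℕ) : ℝ)) ^ (1 + ε) = 2 ^ j * (2 ^ ε) ^ j := by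
    push_cast
    rw [Real.rpow_add (by positivity), Real.rpow_one, ← Real.rpow_natCast 2 j,
      ← Real.rpow_natCast (2 ^ ε) j, ← Real.rpow_mul (by norm_num), ← Real.rpow_mul (by norm_num),
      mul_comm (j : ℝ) ε]
  rw [h3]
  have h4 : 96 * (w : ℝ) ^ 2 * (((j : ℝ) + Nat.clog 2 w) + 3) ≤ A * j := by
    rw [hA]
    have h5 : ((j : ℝ) + Nat.clog 2 w) + 3 ≤ ((Nat.clog 2 w : ℝ) + 4) * j := by
      have : (0 : ℝ) ≤ Nat.clog 2 w := Nat.cast_nonneg _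
      nlinarith
    have h6 : (0 : ℝ) ≤ 96 * (w : ℝ) ^ 2 := by positivity
    calc 96 * (w : ℝ) ^ 2 * (((j : ℝ) + Nat.clog 2 w) + 3)
        ≤ 96 * (w : ℝ) ^ 2 * (((Nat.clog 2 w : ℝ) + 4) * j) :=
          mul_le_mul_of_nonneg_left h5 h6
      _ = _ := by ring
  have h7 : (0 : ℝ) < 2 ^ j := by positivity
  calc ((2 * pts (2 ^ j) w : ℕ) : ℝ) = 2 * (pts (2 ^ j) w : ℝ) := by push_cast; ring
    _ ≤ 2 * (48 * 2 ^ j * w ^ 2 * (((j : ℝ) + Nat.clog 2 w) + 3)) := by linarith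
    _ = 2 ^ j * (96 * (w : ℝ) ^ 2 * (((j : ℝ) + Nat.clog 2 w) + 3)) := by ring
    _ ≤ 2 ^ j * (2 ^ ε) ^ j := mul_le_mul_of_nonneg_left (h4.trans h2) h7.le

theorem num_const (w : ℕ) (hw : 1 ≤ w) (ε : ℝ) (hε : 0 < ε) : ∃ k C : ℕ, 2 ≤ k ∧ ∀ n d : ℕ,
    1 ≤ n → ((side k w ^ (k * pts k w) * (d * (2 * pts k w) ^ Nat.clog k n + 1) : ℕ) : ℝ) ≤
      C * (d + 1) * (n : ℝ) ^ (1 + ε) := by
  obtain ⟨k, hk, hp⟩ := exists_k w hw ε hε
  refine ⟨k, side k w ^ (k * pts k w) * (2 * pts k w), hk, ?_⟩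
  intro n d hn
  have hp1 := pts_pos k w
  have h1 : (2 * pts k w) ^ Nat.clog k n ≤ 2 * pts k w * (2 * pts k w) ^ Nat.log k n :=
    pow_clog_le hk (by omega)
  have hk0 : (0 : ℝ) < k := by exact_mod_cast (by omega : 0 < k)
  have hn0 : (0 : ℝ) < n := by exact_mod_cast hn
  have hn1 : (1 : ℝ) ≤ n := by exact_mod_cast hn
  have h2 : (((2 * pts k w) ^ Nat.log k n : ℕ) : ℝ) ≤ (n : ℝ) ^ (1 + ε) := by
    have h3 : ((k ^ Nat.log k n : ℕ) : ℝ) ≤ n := by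
      exact_mod_cast Nat.pow_log_le_self k (by omega)
    calc (((2 * pts k w) ^ Nat.log k n : ℕ) : ℝ) = ((2 * pts k w : ℕ) : ℝ) ^ Nat.log k n := by
          push_cast; ring
      _ ≤ ((k : ℝ) ^ (1 + ε)) ^ Nat.log k n :=
          pow_le_pow_left₀ (Nat.cast_nonneg _) hp _
      _ = ((k ^ Nat.log k n : ℕ) : ℝ) ^ (1 + ε) := by
          push_cast
          rw [← Real.rpow_natCast, ← Real.rpow_natCast, ← Real.rpow_mul hk0.le,
            ← Real.rpow_mul hk0.le, mul_comm]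
      _ ≤ (n : ℝ) ^ (1 + ε) :=
          Real.rpow_le_rpow (Nat.cast_nonneg _) h3 (by linarith)
  have h4 : (1 : ℝ) ≤ (n : ℝ) ^ (1 + ε) := Real.one_le_rpow hn1 (by linarith)
  have h5 : (((2 * pts k w) ^ Nat.clog k n : ℕ) : ℝ) ≤
      ((2 * pts k w : ℕ) : ℝ) * (n : ℝ) ^ (1 + ε) := by
    calc (((2 * pts k w) ^ Nat.clog k n : ℕ) : ℝ)
        ≤ ((2 * pts k w * (2 * pts k w) ^ Nat.log k n : ℕ) : ℝ) := by exact_mod_cast h1
      _ = ((2 * pts k w : ℕ) : ℝ) * (((2 * pts k w) ^ Nat.log k n : ℕ) : ℝ) := by push_cast; ring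
      _ ≤ _ := mul_le_mul_of_nonneg_left h2 (Nat.cast_nonneg _)
  have h6 : (1 : ℝ) ≤ ((2 * pts k w : ℕ) : ℝ) := by exact_mod_cast (by omega : 1 ≤ 2 * pts k w)
  have h7 : (((d * (2 * pts k w) ^ Nat.clog k n + 1 : ℕ)) : ℝ) ≤
      ((2 * pts k w : ℕ) : ℝ) * (d + 1) * (n : ℝ) ^ (1 + ε) := by
    have hd : (0 : ℝ) ≤ d := Nat.cast_nonneg _
    have h8 : (1 : ℝ) ≤ ((2 * pts k w : ℕ) : ℝ) * (n : ℝ) ^ (1 + ε) :=
      one_le_mul_of_one_le_of_one_le h6 h4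
    calc (((d * (2 * pts k w) ^ Nat.clog k n + 1 : ℕ)) : ℝ)
        = d * (((2 * pts k w) ^ Nat.clog k n : ℕ) : ℝ) + 1 := by push_cast; ring
      _ ≤ d * (((2 * pts k w : ℕ) : ℝ) * (n : ℝ) ^ (1 + ε)) +
          ((2 * pts k w : ℕ) : ℝ) * (n : ℝ) ^ (1 + ε) :=
          add_le_add (mul_le_mul_of_nonneg_left h5 hd) h8
      _ = _ := by ring
  calc ((side k w ^ (k * pts k w) * (d * (2 * pts k w) ^ Nat.clog k n + 1) : ℕ) : ℝ)
      = ((side k w ^ (k * pts k w) : ℕ) : ℝ) *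
        ((d * (2 * pts k w) ^ Nat.clog k n + 1 : ℕ) : ℝ) := by push_cast; ring
    _ ≤ ((side k w ^ (k * pts k w) : ℕ) : ℝ) *
        (((2 * pts k w : ℕ) : ℝ) * (d + 1) * (n : ℝ) ^ (1 + ε)) :=
        mul_le_mul_of_nonneg_left h7 (Nat.cast_nonneg _)
    _ = _ := by push_cast; ring

/-- a power of a logarithm is at most linear -/
theorem clog_pow_le (r : ℕ) (hr : 1 ≤ r) (w : ℕ) (hw : 1 ≤ w) :
    (2 * Nat.clog 2 w + 4) ^ (2 * r) ≤ (8 * (4 * r) ^ (2 * r)) * w := by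
  set j := Nat.clog 2 w with hj
  have h2w : 2 ^ j ≤ 2 * w := by
    rcases Nat.lt_or_ge 1 w with h | h
    · have h1 : j ≠ 0 := by
        have := Nat.clog_pos (b := 2) (by norm_num) (show 2 ≤ w by omega)
        omega
      have h3 := Nat.pow_pred_clog_lt_self (b := 2) (by norm_num) h
      rw [← hj] at h3
      have h4 : j.pred = j - 1 := rfl
      rw [h4] at h3
      have h5 : 2 ^ j = 2 * 2 ^ (j - 1) := by
        conv_lhs => rw [show j = (j - 1) + 1 by omega, pow_succ]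
        ring
      omega
    · have : w = 1 := by omega
      subst this
      simp [hj]
  set a := 2 * j + 4 with ha
  set N := 4 * r with hN
  have hNpos : 0 < N := by omega
  have h1 : a ≤ N * 2 ^ (a / N) := by
    have h3 : a / N + 1 ≤ 2 ^ (a / N) := Nat.lt_two_pow_self
    have h4 : a < N * (a / N + 1) := by
      have h5 := Nat.div_add_mod a N
      have h6 := Nat.mod_lt a hNpos
      calc a = N * (a / N) + a % N := h5.symm
        _ < N * (a / N) + N := by omega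
        _ = N * (a / N + 1) := by ring
    exact h4.le.trans (Nat.mul_le_mul_left _ h3)
  have h5 : (a / N) * (2 * r) ≤ j + 2 := by
    have h6 : (a / N) * N ≤ a := Nat.div_mul_le_self a N
    have h7 : (a / N) * N = 2 * ((a / N) * (2 * r)) := by rw [hN]; ring
    omega
  calc a ^ (2 * r) ≤ (N * 2 ^ (a / N)) ^ (2 * r) := Nat.pow_le_pow_left h1 _
    _ = N ^ (2 * r) * 2 ^ ((a / N) * (2 * r)) := by rw [mul_pow, ← pow_mul]
    _ ≤ N ^ (2 * r) * 2 ^ (j + 2) :=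
        Nat.mul_le_mul_left _ (Nat.pow_le_pow_right (by norm_num) h5)
    _ = N ^ (2 * r) * (4 * 2 ^ j) := by rw [pow_add]; ring
    _ ≤ N ^ (2 * r) * (4 * (2 * w)) := Nat.mul_le_mul_left _ (Nat.mul_le_mul_left _ h2w)
    _ = (8 * N ^ (2 * r)) * w := by ring

theorem num_grow (r : ℕ) (hr : 1 ≤ r) : ∃ c : ℕ, ∀ n w : ℕ, 1 ≤ w → 2 ≤ n →
    w ^ (2 * r + 3) ≤ (Nat.log 2 n) ^ r → ∃ k : ℕ, 2 ≤ k ∧ ∀ d : ℕ,
    side k w ^ (k * pts k w) * (d * (2 * pts k w) ^ Nat.clog k n + 1) ≤ (d + 1) * n ^ c := by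
  set D : ℕ := 8 * (4 * r) ^ (2 * r) with hD
  have hD1 : 1 ≤ D := by
    have : 1 ≤ (4 * r) ^ (2 * r) := Nat.one_le_pow _ _ (by omega)
    omega
  refine ⟨384 * D + 2 * (12 + 3 * r), ?_⟩
  intro n w hw hn hwn
  have hL1 : 1 ≤ Nat.log 2 n := Nat.log_pos (by norm_num) hn
  -- the choice of `k`
  have hex : ∃ k : ℕ, 2 ≤ k ∧ w ≤ k ^ r :=
    ⟨w + 1, by omega, (Nat.le_succ w).trans (Nat.le_self_pow (by omega) _)⟩
  classical
  set k := Nat.find hex with hk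
  obtain ⟨hk2, hkw⟩ := Nat.find_spec hex
  rw [← hk] at hk2 hkw
  have hk3 : k = 2 ∨ (k - 1) ^ r < w := by
    rcases Nat.lt_or_ge 2 k with h | h
    · right
      have := Nat.find_min hex (m := k - 1) (by omega)
      by_contra hc
      exact this ⟨by omega, by omega⟩
    · left; omega
  have hkr : k ^ r ≤ 2 ^ r * w := by
    rcases hk3 with h | h
    · rw [h]; exact Nat.le_mul_of_pos_right _ hw
    · calc k ^ r ≤ (2 * (k - 1)) ^ r := Nat.pow_le_pow_left (by omega) r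
        _ = 2 ^ r * (k - 1) ^ r := mul_pow _ _ _
        _ ≤ 2 ^ r * w := Nat.mul_le_mul_left _ h.le
  have hkle : k = 2 ∨ k ≤ w := by
    rcases hk3 with h | h
    · left; exact h
    · right
      have : k - 1 ≤ (k - 1) ^ r := Nat.le_self_pow (by omega) _
      omega
  have hk2w : k ≤ 2 * w := by omega
  have hwL : w ≤ Nat.log 2 n := by
    by_contra hc
    push Not at hc
    have h1 : (Nat.log 2 n) ^ r < w ^ r := Nat.pow_lt_pow_left hc (by omega)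
    have h2 : w ^ r ≤ w ^ (2 * r + 3) := Nat.pow_le_pow_right hw (by omega)
    omega
  have hLn : Nat.log 2 n < n := Nat.log_lt_self 2 (by omega)
  have hkn : k ≤ n := by omega
  refine ⟨k, hk2, ?_⟩
  intro d
  set l := Nat.clog 2 (k * w) with hl
  have hlw : k * w ≤ 2 ^ l := Nat.le_pow_clog (by norm_num) _
  have hl2 : l + 3 ≤ 2 * Nat.clog 2 w + 4 := by
    have h1 : l ≤ 2 * Nat.clog 2 w + 1 := by
      apply Nat.clog_le_of_le_pow
      have h2 : w ≤ 2 ^ Nat.clog 2 w := Nat.le_pow_clog (by norm_num) _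
      calc k * w ≤ (2 * w) * w := Nat.mul_le_mul_right _ hk2w
        _ = 2 * (w * w) := by ring
        _ ≤ 2 * (2 ^ Nat.clog 2 w * 2 ^ Nat.clog 2 w) :=
            Nat.mul_le_mul_left _ (Nat.mul_le_mul h2 h2)
        _ = 2 ^ (2 * Nat.clog 2 w + 1) := by
            rw [pow_succ, two_mul (Nat.clog 2 w), pow_add]; ring
    omega
  have hb : (l + 3) ^ (2 * r) ≤ D * w :=
    (Nat.pow_le_pow_left hl2 _).trans (clog_pow_le r hr w hw)
  have hs := side_le_pow k w l (by omega) hlw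
  have hp := pts_le k w l (by omega) hw hlw
  have hp1 := pts_pos k w
  have hn1 : 2 ^ Nat.log 2 n ≤ n := Nat.pow_log_le_self 2 (by omega)
  -- the exponent of the first factor
  have hE1 : (2 * l + 4) * (k * pts k w) ≤ 96 * (k ^ 2 * w ^ 2 * (l + 3) ^ 2) := by
    calc (2 * l + 4) * (k * pts k w) ≤ (2 * (l + 3)) * (k * (48 * k * w ^ 2 * (l + 3))) :=
          Nat.mul_le_mul (by omega) (Nat.mul_le_mul_left _ hp)
      _ = 96 * (k ^ 2 * w ^ 2 * (l + 3) ^ 2) := by ring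
  have hE2 : (96 * (k ^ 2 * w ^ 2 * (l + 3) ^ 2)) ^ r ≤ (384 * D * Nat.log 2 n) ^ r := by
    calc (96 * (k ^ 2 * w ^ 2 * (l + 3) ^ 2)) ^ r
        = 96 ^ r * ((k ^ r) ^ 2 * w ^ (2 * r) * (l + 3) ^ (2 * r)) := by
          rw [mul_pow, mul_pow, mul_pow, ← pow_mul, ← pow_mul, ← pow_mul, ← pow_mul,
            mul_comm r 2]
      _ ≤ 96 ^ r * ((2 ^ r * w) ^ 2 * w ^ (2 * r) * (D * w)) :=
          Nat.mul_le_mul_left _ (Nat.mul_le_mul
            (Nat.mul_le_mul_right _ (Nat.pow_le_pow_left hkr 2)) hb)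
      _ = (96 ^ r * (2 ^ r) ^ 2) * D * w ^ (2 * r + 3) := by ring
      _ = 384 ^ r * D * w ^ (2 * r + 3) := by
          rw [← pow_mul, mul_comm r 2, pow_mul, ← mul_pow]
          norm_num
      _ ≤ 384 ^ r * D ^ r * (Nat.log 2 n) ^ r :=
          Nat.mul_le_mul (Nat.mul_le_mul_left _ (Nat.le_self_pow (by omega) D)) hwn
      _ = (384 * D * Nat.log 2 n) ^ r := by rw [← mul_pow, ← mul_pow]
  have hE : (2 * l + 4) * (k * pts k w) ≤ 384 * D * Nat.log 2 n :=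
    hE1.trans ((Nat.pow_le_pow_iff_left (by omega)).mp hE2)
  have hF : side k w ^ (k * pts k w) ≤ n ^ (384 * D) := by
    calc side k w ^ (k * pts k w)
        ≤ (2 ^ (2 * l + 4)) ^ (k * pts k w) := Nat.pow_le_pow_left hs _
      _ = 2 ^ ((2 * l + 4) * (k * pts k w)) := by rw [← pow_mul]
      _ ≤ 2 ^ (384 * D * Nat.log 2 n) := Nat.pow_le_pow_right (by norm_num) hE
      _ = (2 ^ Nat.log 2 n) ^ (384 * D) := by rw [← pow_mul, mul_comm]
      _ ≤ n ^ (384 * D) := Nat.pow_le_pow_left hn1 _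
  -- the second factor
  have hq : 2 * pts k w ≤ k ^ (12 + 3 * r) := by
    have h1 : l + 3 ≤ 8 * (k * w) := by
      have h2 := add_three_le l
      have h3 : 2 ^ l ≤ 2 * (k * w) := by
        have h5 : 1 < k * w := by nlinarith
        have h4 := Nat.pow_pred_clog_lt_self (b := 2) (by norm_num) h5
        rw [← hl] at h4
        have h6 : l.pred = l - 1 := rfl
        rw [h6] at h4
        have h7 : l ≠ 0 := by
          have := Nat.clog_pos (b := 2) (by norm_num) (show 2 ≤ k * w by omega)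
          omega
        have h8 : 2 ^ l = 2 * 2 ^ (l - 1) := by
          conv_lhs => rw [show l = (l - 1) + 1 by omega, pow_succ]
          ring
        omega
      have h9 : 2 ^ (l + 2) = 4 * 2 ^ l := by rw [pow_add]; ring
      omega
    have h10 : 2 ^ 10 ≤ k ^ 10 := Nat.pow_le_pow_left hk2 10
    calc 2 * pts k w ≤ 2 * (48 * k * w ^ 2 * (8 * (k * w))) :=
          Nat.mul_le_mul_left _ (hp.trans (Nat.mul_le_mul_left _ h1))
      _ = 768 * (k ^ 2 * w ^ 3) := by ring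
      _ ≤ k ^ 10 * (k ^ 2 * (k ^ r) ^ 3) :=
          Nat.mul_le_mul (le_trans (by norm_num) h10)
            (Nat.mul_le_mul_left _ (Nat.pow_le_pow_left hkw 3))
      _ = k ^ (12 + 3 * r) := by
          rw [← pow_mul, ← pow_add, ← pow_add]; congr 1; ring
  have hG : (2 * pts k w) ^ Nat.clog k n ≤ n ^ (2 * (12 + 3 * r)) := by
    have h1 : Nat.clog k n ≤ Nat.log k n + 1 := by
      apply Nat.clog_le_of_le_pow
      exact (Nat.lt_pow_succ_log_self (by omega) n).le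
    have h2 : k ^ Nat.clog k n ≤ n ^ 2 := by
      calc k ^ Nat.clog k n ≤ k ^ (Nat.log k n + 1) := Nat.pow_le_pow_right (by omega) h1
        _ = k ^ Nat.log k n * k := pow_succ k (Nat.log k n)
        _ ≤ n * n := Nat.mul_le_mul (Nat.pow_log_le_self _ (by omega)) hkn
        _ = n ^ 2 := (pow_two n).symm
    calc (2 * pts k w) ^ Nat.clog k n
        ≤ (k ^ (12 + 3 * r)) ^ Nat.clog k n := Nat.pow_le_pow_left hq _
      _ = (k ^ Nat.clog k n) ^ (12 + 3 * r) := by rw [← pow_mul, ← pow_mul, mul_comm]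
      _ ≤ (n ^ 2) ^ (12 + 3 * r) := Nat.pow_le_pow_left h2 _
      _ = n ^ (2 * (12 + 3 * r)) := by rw [← pow_mul]
  have hn36 : 1 ≤ n ^ (2 * (12 + 3 * r)) := Nat.one_le_pow _ _ (by omega)
  calc side k w ^ (k * pts k w) * (d * (2 * pts k w) ^ Nat.clog k n + 1)
      ≤ n ^ (384 * D) * (d * n ^ (2 * (12 + 3 * r)) + n ^ (2 * (12 + 3 * r))) :=
        Nat.mul_le_mul hF (Nat.add_le_add (Nat.mul_le_mul_left _ hG) hn36)
    _ = (d + 1) * n ^ (384 * D + 2 * (12 + 3 * r)) := by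
        rw [pow_add]; ring

end Pool.Agent.V8H37.Roabp2
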