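import Mathlib
import Pool.Agent.V8H37.Roabp.Defs

/-!
# Numerical bounds for the hitting sets for read-once oblivious branching programs
-/

set_option autoImplicit false

namespace Pool.Agent.V8H37.Roabp

theorem npar_le (k w : ℕ) (hk : 1 ≤ k) (hw : 1 ≤ w) : npar k w ≤ 5 * k * w ^ 4 := by
  unfold npar
  have h1 : w ^ 2 ≤ w ^ 4 := Nat.pow_le_pow_right hw (by norm_num)
  have h2 : w ≤ w ^ 4 := by
    calc w = w ^ 1 := (pow_one w).symm
      _ ≤ w ^ 4 := Nat.pow_le_pow_right hw (by norm_num)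
  have h3 : 1 ≤ w ^ 4 := Nat.one_le_pow _ _ hw
  have h4 : k * w ^ 2 ≤ k * w ^ 4 := Nat.mul_le_mul_left _ h1
  have h5 : w ^ 4 ≤ k * w ^ 4 := Nat.le_mul_of_pos_left _ hk
  nlinarith

theorem side_le_pow (k w l : ℕ) (hk : 1 ≤ k) (hw : 1 ≤ w) (hl : k * w ≤ 2 ^ l) :
    side k w ≤ 2 ^ (2 * l + 4) := by
  unfold side
  have h1 : k * w ^ 2 ≤ (k * w) ^ 2 := by
    have : k ≤ k ^ 2 := by nlinarith
    calc k * w ^ 2 ≤ k ^ 2 * w ^ 2 := Nat.mul_le_mul_right _ this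
      _ = (k * w) ^ 2 := by ring
  have h2 : (k * w) ^ 2 ≤ (2 ^ l) ^ 2 := Nat.pow_le_pow_left hl 2
  calc 16 * k * w ^ 2 = 16 * (k * w ^ 2) := by ring
    _ ≤ 16 * (2 ^ l) ^ 2 := Nat.mul_le_mul_left _ (h1.trans h2)
    _ = 2 ^ (2 * l + 4) := by rw [← pow_mul, pow_add, mul_comm l 2]; ring

theorem kside_le_pow (k w l : ℕ) (hk : 1 ≤ k) (hw : 1 ≤ w) (hl : k * w ≤ 2 ^ l) :
    k * side k w + 2 ≤ 2 ^ (3 * l + 5) := by
  have h1 := side_le_pow k w l hk hw hl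
  have h2 : k ≤ 2 ^ l := (Nat.le_mul_of_pos_right k hw).trans hl
  have h3 : k * side k w ≤ 2 ^ l * 2 ^ (2 * l + 4) := Nat.mul_le_mul h2 h1
  have h4 : 2 ^ l * 2 ^ (2 * l + 4) = 2 ^ (3 * l + 4) := by rw [← pow_add]; congr 1; ring
  have h5 : 2 ≤ 2 ^ (3 * l + 4) := by
    calc 2 = 2 ^ 1 := by norm_num
      _ ≤ 2 ^ (3 * l + 4) := Nat.pow_le_pow_right (by norm_num) (by omega)
  calc k * side k w + 2 ≤ 2 ^ (3 * l + 4) + 2 ^ (3 * l + 4) := by rw [← h4]; omega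
    _ = 2 ^ (3 * l + 5) := by rw [show 3 * l + 5 = (3 * l + 4) + 1 by ring, pow_succ]; ring

theorem clog_le_of_le_pow' {x e : ℕ} (h : x ≤ 2 ^ e) : Nat.clog 2 x ≤ e :=
  Nat.clog_le_of_le_pow h

theorem rounds_le (k w l : ℕ) (hk : 1 ≤ k) (hw : 1 ≤ w) (hl : k * w ≤ 2 ^ l) :
    rounds k w ≤ 2 ^ (6 * l + 8) := by
  unfold rounds
  have h1 := side_le_pow k w l hk hw hl
  have h2 := kside_le_pow k w l hk hw hl
  have h3 : side k w ^ k ≤ 2 ^ ((2 * l + 4) * k) := by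
    calc side k w ^ k ≤ (2 ^ (2 * l + 4)) ^ k := Nat.pow_le_pow_left h1 k
      _ = _ := by rw [← pow_mul]
  have h4 : side k w ^ k * (k * side k w + 2) + 1 ≤ 2 ^ ((2 * l + 4) * k + 3 * l + 6) := by
    have h5 : side k w ^ k * (k * side k w + 2) ≤ 2 ^ ((2 * l + 4) * k) * 2 ^ (3 * l + 5) :=
      Nat.mul_le_mul h3 h2
    rw [← pow_add] at h5
    have h6 : 1 ≤ 2 ^ ((2 * l + 4) * k + (3 * l + 5)) := Nat.one_le_two_pow
    calc side k w ^ k * (k * side k w + 2) + 1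
        ≤ 2 ^ ((2 * l + 4) * k + (3 * l + 5)) + 2 ^ ((2 * l + 4) * k + (3 * l + 5)) := by omega
      _ = 2 ^ ((2 * l + 4) * k + 3 * l + 6) := by
          rw [show (2 * l + 4) * k + 3 * l + 6 = ((2 * l + 4) * k + (3 * l + 5)) + 1 by ring,
            pow_succ]; ring
  have h7 : Nat.clog 2 (side k w ^ k * (k * side k w + 2) + 1) ≤ k * (5 * l + 10) := by
    refine (clog_le_of_le_pow' h4).trans ?_
    nlinarith
  have h8 := npar_le k w hk hw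
  have hkl : k ≤ 2 ^ l := (Nat.le_mul_of_pos_right k hw).trans hl
  have h9 : npar k w ≤ 2 ^ (4 * l + 3) := by
    have h10 : k * w ^ 4 ≤ (k * w) ^ 4 := by
      have : k ≤ k ^ 4 := Nat.le_self_pow (by norm_num) k
      calc k * w ^ 4 ≤ k ^ 4 * w ^ 4 := Nat.mul_le_mul_right _ this
        _ = (k * w) ^ 4 := by ring
    have h11 : (k * w) ^ 4 ≤ (2 ^ l) ^ 4 := Nat.pow_le_pow_left hl 4
    calc npar k w ≤ 5 * k * w ^ 4 := h8
      _ = 5 * (k * w ^ 4) := by ring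
      _ ≤ 8 * (2 ^ l) ^ 4 := Nat.mul_le_mul (by norm_num) (h10.trans h11)
      _ = 2 ^ (4 * l + 3) := by rw [← pow_mul, pow_add, mul_comm l 4]; ring
  have h12 : 5 * l + 10 ≤ 2 ^ (l + 4) := by
    have h13 : l + 1 ≤ 2 ^ l := Nat.lt_two_pow_self
    rw [pow_add]; omega
  have h14 : npar k w * (k * (5 * l + 10)) ≤ 2 ^ (4 * l + 3) * (2 ^ l * 2 ^ (l + 4)) :=
    Nat.mul_le_mul h9 (Nat.mul_le_mul hkl h12)
  have h15 : 2 ^ (4 * l + 3) * (2 ^ l * 2 ^ (l + 4)) = 2 ^ (6 * l + 7) := by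
    rw [← pow_add, ← pow_add]; congr 1; ring
  have h16 : 1 ≤ 2 ^ (6 * l + 7) := Nat.one_le_two_pow
  calc npar k w * Nat.clog 2 (side k w ^ k * (k * side k w + 2) + 1) + 1
      ≤ npar k w * (k * (5 * l + 10)) + 1 := by
        have := Nat.mul_le_mul_left (npar k w) h7
        omega
    _ ≤ 2 ^ (6 * l + 7) + 2 ^ (6 * l + 7) := by rw [← h15] at h16 ⊢; omega
    _ = 2 ^ (6 * l + 8) := by rw [show 6 * l + 8 = (6 * l + 7) + 1 by ring, pow_succ]; ring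

theorem pts_le (k w l : ℕ) (hk : 1 ≤ k) (hw : 1 ≤ w) (hl : k * w ≤ 2 ^ l) :
    pts k w ≤ 5 * k * w ^ 4 * (9 * l + 15) := by
  unfold pts
  have h1 := rounds_le k w l hk hw hl
  have h2 := kside_le_pow k w l hk hw hl
  have h3 : rounds k w * (k * side k w + 2) + 1 ≤ 2 ^ (9 * l + 14) := by
    have h4 : rounds k w * (k * side k w + 2) ≤ 2 ^ (6 * l + 8) * 2 ^ (3 * l + 5) :=
      Nat.mul_le_mul h1 h2
    rw [← pow_add] at h4
    have h6 : 1 ≤ 2 ^ (6 * l + 8 + (3 * l + 5)) := Nat.one_le_two_pow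
    calc rounds k w * (k * side k w + 2) + 1
        ≤ 2 ^ (6 * l + 8 + (3 * l + 5)) + 2 ^ (6 * l + 8 + (3 * l + 5)) := by omega
      _ = 2 ^ (9 * l + 14) := by
          rw [show 9 * l + 14 = (6 * l + 8 + (3 * l + 5)) + 1 by ring, pow_succ]; ring
  have h5 := clog_le_of_le_pow' h3
  have h6 := npar_le k w hk hw
  have h7 : 1 ≤ 5 * k * w ^ 4 := by
    have : 1 ≤ w ^ 4 := Nat.one_le_pow _ _ hw
    nlinarith
  calc npar k w * Nat.clog 2 (rounds k w * (k * side k w + 2) + 1) + 1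
      ≤ 5 * k * w ^ 4 * (9 * l + 14) + 1 := by
        have := Nat.mul_le_mul h6 h5
        omega
    _ ≤ 5 * k * w ^ 4 * (9 * l + 15) := by
        have : 5 * k * w ^ 4 * (9 * l + 15) = 5 * k * w ^ 4 * (9 * l + 14) + 5 * k * w ^ 4 := by
          ring
        omega

theorem pts_pos (k w : ℕ) : 1 ≤ pts k w := by unfold pts; omega

theorem pow_clog_le {k n m : ℕ} (hk : 2 ≤ k) (hn : 1 ≤ n) (hm : 1 ≤ m) :
    m ^ Nat.clog k n ≤ m * m ^ Nat.log k n := by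
  have h1 : Nat.clog k n ≤ Nat.log k n + 1 := by
    apply Nat.clog_le_of_le_pow
    exact (Nat.lt_pow_succ_log_self (by omega) n).le
  calc m ^ Nat.clog k n ≤ m ^ (Nat.log k n + 1) := Nat.pow_le_pow_right hm h1
    _ = m * m ^ Nat.log k n := by rw [pow_succ, mul_comm]

theorem exists_k (w : ℕ) (hw : 1 ≤ w) (ε : ℝ) (hε : 0 < ε) :
    ∃ k : ℕ, 2 ≤ k ∧ ((2 * pts k w : ℕ) : ℝ) ≤ (k : ℝ) ^ (1 + ε) := by
  have hr : (1 : ℝ) < 2 ^ ε := Real.one_lt_rpow (by norm_num) hε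
  have ht := tendsto_pow_const_div_const_pow_of_one_lt 1 hr
  set A : ℝ := 10 * w ^ 4 * (9 * (Nat.clog 2 w : ℝ) + 24) with hA
  have hA0 : 0 < A := by positivity
  have h1 := (ht.eventually (gt_mem_nhds (show (0 : ℝ) < 1 / A by positivity))).and
    (Filter.eventually_ge_atTop 1)
  obtain ⟨j, hj, hj1⟩ := h1.exists
  refine ⟨2 ^ j, ?_, ?_⟩
  · calc 2 = 2 ^ 1 := by norm_num
      _ ≤ 2 ^ j := Nat.pow_le_pow_right (by norm_num) hj1
  have hl : 2 ^ j * w ≤ 2 ^ (j + Nat.clog 2 w) := by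
    rw [pow_add]
    exact Nat.mul_le_mul_left _ (Nat.le_pow_clog (by norm_num) w)
  have hp := pts_le (2 ^ j) w (j + Nat.clog 2 w) Nat.one_le_two_pow hw hl
  have hp' : ((pts (2 ^ j) w : ℕ) : ℝ) ≤
      5 * 2 ^ j * w ^ 4 * (9 * ((j : ℝ) + Nat.clog 2 w) + 15) := by
    have := (Nat.cast_le (α := ℝ)).mpr hp
    push_cast at this
    exact this
  have hj2 : (1 : ℝ) ≤ j := by exact_mod_cast hj1
  have hpw : (0 : ℝ) < (2 ^ ε) ^ j := by positivity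
  have h2 : A * j ≤ (2 ^ ε) ^ j := by
    rw [pow_one, div_lt_div_iff₀ hpw hA0] at hj
    linarith
  have h3 : (((2 ^ j : ℕ) : ℝ)) ^ (1 + ε) = 2 ^ j * (2 ^ ε) ^ j := by
    push_cast
    rw [Real.rpow_add (by positivity), Real.rpow_one, ← Real.rpow_natCast 2 j,
      ← Real.rpow_natCast (2 ^ ε) j, ← Real.rpow_mul (by norm_num), ← Real.rpow_mul (by norm_num),
      mul_comm (j : ℝ) ε]
  rw [h3]
  have h4 : 10 * (w : ℝ) ^ 4 * (9 * ((j : ℝ) + Nat.clog 2 w) + 15) ≤ A * j := by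
    rw [hA]
    have h5 : 9 * ((j : ℝ) + Nat.clog 2 w) + 15 ≤ (9 * (Nat.clog 2 w : ℝ) + 24) * j := by
      have : (0 : ℝ) ≤ Nat.clog 2 w := Nat.cast_nonneg _
      nlinarith
    have h6 : (0 : ℝ) ≤ 10 * (w : ℝ) ^ 4 := by positivity
    calc 10 * (w : ℝ) ^ 4 * (9 * ((j : ℝ) + Nat.clog 2 w) + 15)
        ≤ 10 * (w : ℝ) ^ 4 * ((9 * (Nat.clog 2 w : ℝ) + 24) * j) :=
          mul_le_mul_of_nonneg_left h5 h6
      _ = _ := by ring
  have h7 : (0 : ℝ) < 2 ^ j := by positivity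
  calc ((2 * pts (2 ^ j) w : ℕ) : ℝ) = 2 * (pts (2 ^ j) w : ℝ) := by push_cast; ring
    _ ≤ 2 * (5 * 2 ^ j * w ^ 4 * (9 * ((j : ℝ) + Nat.clog 2 w) + 15)) := by linarith
    _ = 2 ^ j * (10 * (w : ℝ) ^ 4 * (9 * ((j : ℝ) + Nat.clog 2 w) + 15)) := by ring
    _ ≤ 2 ^ j * (2 ^ ε) ^ j := mul_le_mul_of_nonneg_left (h4.trans h2) h7.le

theorem num_const (w : ℕ) (hw : 1 ≤ w) (ε : ℝ) (hε : 0 < ε) : ∃ k C : ℕ, 2 ≤ k ∧ ∀ n d : ℕ,
    1 ≤ n → ((side k w ^ (k * pts k w) * (d * (2 * pts k w) ^ Nat.clog k n + 1) : ℕ) : ℝ) ≤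
      C * (d + 1) * (n : ℝ) ^ (1 + ε) := by
  obtain ⟨k, hk, hp⟩ := exists_k w hw ε hε
  refine ⟨k, side k w ^ (k * pts k w) * (2 * pts k w), hk, ?_⟩
  intro n d hn
  have hp1 := pts_pos k w
  have h1 : (2 * pts k w) ^ Nat.clog k n ≤ 2 * pts k w * (2 * pts k w) ^ Nat.log k n :=
    pow_clog_le hk hn (by omega)
  have hk0 : (0 : ℝ) < k := by exact_mod_cast (by omega : 0 < k)
  have hn0 : (0 : ℝ) < n := by exact_mod_cast hn
  have hn1 : (1 : ℝ) ≤ n := by exact_mod_cast hn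
  have h2 : (((2 * pts k w) ^ Nat.log k n : ℕ) : ℝ) ≤ (n : ℝ) ^ (1 + ε) := by
    have h3 : ((k ^ Nat.log k n : ℕ) : ℝ) ≤ n := by
      exact_mod_cast Nat.pow_log_le_self k (by omega)
    calc (((2 * pts k w) ^ Nat.log k n : ℕ) : ℝ) = ((2 * pts k w : ℕ) : ℝ) ^ Nat.log k n := by
          push_cast; ring
      _ ≤ ((k : ℝ) ^ (1 + ε)) ^ Nat.log k n :=
          pow_le_pow_left₀ (Nat.cast_nonneg _) hp _
      _ = ((k ^ Nat.log k n : ℕ) : ℝ) ^ (1 + ε) := by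
          push_cast
          rw [← Real.rpow_natCast, ← Real.rpow_natCast, ← Real.rpow_mul hk0.le,
            ← Real.rpow_mul hk0.le, mul_comm]
      _ ≤ (n : ℝ) ^ (1 + ε) :=
          Real.rpow_le_rpow (Nat.cast_nonneg _) h3 (by linarith)
  have h4 : (1 : ℝ) ≤ (n : ℝ) ^ (1 + ε) := Real.one_le_rpow hn1 (by linarith)
  have h5 : (((2 * pts k w) ^ Nat.clog k n : ℕ) : ℝ) ≤
      ((2 * pts k w : ℕ) : ℝ) * (n : ℝ) ^ (1 + ε) := by
    calc (((2 * pts k w) ^ Nat.clog k n : ℕ) : ℝ)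
        ≤ ((2 * pts k w * (2 * pts k w) ^ Nat.log k n : ℕ) : ℝ) := by exact_mod_cast h1
      _ = ((2 * pts k w : ℕ) : ℝ) * (((2 * pts k w) ^ Nat.log k n : ℕ) : ℝ) := by push_cast; ring
      _ ≤ _ := mul_le_mul_of_nonneg_left h2 (Nat.cast_nonneg _)
  have h6 : (1 : ℝ) ≤ ((2 * pts k w : ℕ) : ℝ) := by exact_mod_cast (by omega : 1 ≤ 2 * pts k w)
  have h7 : (((d * (2 * pts k w) ^ Nat.clog k n + 1 : ℕ)) : ℝ) ≤
      ((2 * pts k w : ℕ) : ℝ) * (d + 1) * (n : ℝ) ^ (1 + ε) := by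
    have hd : (0 : ℝ) ≤ d := Nat.cast_nonneg _
    have h8 : (1 : ℝ) ≤ ((2 * pts k w : ℕ) : ℝ) * (n : ℝ) ^ (1 + ε) :=
      one_le_mul_of_one_le_of_one_le h6 h4
    calc (((d * (2 * pts k w) ^ Nat.clog k n + 1 : ℕ)) : ℝ)
        = d * (((2 * pts k w) ^ Nat.clog k n : ℕ) : ℝ) + 1 := by push_cast; ring
      _ ≤ d * (((2 * pts k w : ℕ) : ℝ) * (n : ℝ) ^ (1 + ε)) +
          ((2 * pts k w : ℕ) : ℝ) * (n : ℝ) ^ (1 + ε) :=
          add_le_add (mul_le_mul_of_nonneg_left h5 hd) h8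
      _ = _ := by ring
  calc ((side k w ^ (k * pts k w) * (d * (2 * pts k w) ^ Nat.clog k n + 1) : ℕ) : ℝ)
      = ((side k w ^ (k * pts k w) : ℕ) : ℝ) *
        ((d * (2 * pts k w) ^ Nat.clog k n + 1 : ℕ) : ℝ) := by push_cast; ring
    _ ≤ ((side k w ^ (k * pts k w) : ℕ) : ℝ) *
        (((2 * pts k w : ℕ) : ℝ) * (d + 1) * (n : ℝ) ^ (1 + ε)) :=
        mul_le_mul_of_nonneg_left h7 (Nat.cast_nonneg _)
    _ = _ := by push_cast; ring

theorem clog_bound (w : ℕ) (hw : 1 ≤ w) :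
    (Nat.clog 2 ((w + 1) * w) + 2) ^ 2 ≤ 32 * w := by
  set j := Nat.clog 2 (w + 1) with hj
  have hjpos : 1 ≤ j := by
    rw [hj]
    exact Nat.clog_pos (by norm_num) (by omega)
  have h1 : Nat.clog 2 ((w + 1) * w) ≤ 2 * j := by
    apply Nat.clog_le_of_le_pow
    have h2 : w + 1 ≤ 2 ^ j := Nat.le_pow_clog (by norm_num) _
    calc (w + 1) * w ≤ 2 ^ j * 2 ^ j := Nat.mul_le_mul h2 (by omega)
      _ = 2 ^ (2 * j) := by rw [← pow_add]; congr 1; ring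
  have h3 : 2 ^ (j - 1) ≤ w := by
    have := Nat.pow_pred_clog_lt_self (b := 2) (by norm_num) (show 1 < w + 1 by omega)
    rw [← hj] at this
    have h4 : j.pred = j - 1 := rfl
    rw [h4] at this
    omega
  have h5 : ∀ i : ℕ, (i + 2) ^ 2 ≤ 8 * 2 ^ i := by
    intro i
    induction i with
    | zero => norm_num
    | succ i ih =>
      rcases Nat.eq_zero_or_pos i with h0 | h0
      · subst h0; norm_num
      · have e1 : (i + 1 + 2) ^ 2 ≤ 2 * (i + 2) ^ 2 := by nlinarith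
        have e2 : 2 * (i + 2) ^ 2 ≤ 2 * (8 * 2 ^ i) := Nat.mul_le_mul_left _ ih
        have e3 : 2 * (8 * 2 ^ i) = 8 * 2 ^ (i + 1) := by rw [pow_succ 2 i]; ring
        omega
  have h6 := h5 (j - 1)
  have h7 : (j + 1) ^ 2 ≤ 8 * w := by
    have : j - 1 + 2 = j + 1 := by omega
    rw [this] at h6
    omega
  calc (Nat.clog 2 ((w + 1) * w) + 2) ^ 2 ≤ (2 * j + 2) ^ 2 :=
        Nat.pow_le_pow_left (by omega) 2
    _ = 4 * (j + 1) ^ 2 := by ring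
    _ ≤ 32 * w := by omega

theorem num_grow : ∃ c : ℕ, ∀ n w d : ℕ, 1 ≤ w → 2 ≤ n → w ^ 7 ≤ Nat.log 2 n →
    side (w + 1) w ^ ((w + 1) * pts (w + 1) w) *
      (d * (2 * pts (w + 1) w) ^ Nat.clog (w + 1) n + 1) ≤ (d + 1) * n ^ c := by
  refine ⟨11556, ?_⟩
  intro n w d hw hn hwn
  set l := Nat.clog 2 ((w + 1) * w) with hl
  have hlw : (w + 1) * w ≤ 2 ^ l := Nat.le_pow_clog (by norm_num) _
  have hb : (l + 2) ^ 2 ≤ 32 * w := clog_bound w hw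
  have hs := side_le_pow (w + 1) w l (by omega) hw hlw
  have hp := pts_le (w + 1) w l (by omega) hw hlw
  have hp1 := pts_pos (w + 1) w
  have hp2 : pts (w + 1) w ≤ 45 * (w + 1) * w ^ 4 * (l + 2) := by
    refine hp.trans ?_
    calc 5 * (w + 1) * w ^ 4 * (9 * l + 15) ≤ 5 * (w + 1) * w ^ 4 * (9 * (l + 2)) :=
          Nat.mul_le_mul_left _ (by omega)
      _ = _ := by ring
  -- the first factor
  have hn1 : 2 ^ Nat.log 2 n ≤ n := Nat.pow_log_le_self 2 (by omega)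
  have hE : (2 * l + 4) * ((w + 1) * pts (w + 1) w) ≤ 11520 * Nat.log 2 n := by
    have h1 : (2 * l + 4) * ((w + 1) * pts (w + 1) w) ≤
        (2 * (l + 2)) * ((w + 1) * (45 * (w + 1) * w ^ 4 * (l + 2))) := by
      apply Nat.mul_le_mul (by omega)
      exact Nat.mul_le_mul_left _ hp2
    have h2 : (2 * (l + 2)) * ((w + 1) * (45 * (w + 1) * w ^ 4 * (l + 2))) =
        90 * ((w + 1) ^ 2 * w ^ 4) * (l + 2) ^ 2 := by ring
    have h3 : (w + 1) ^ 2 ≤ 4 * w ^ 2 := by nlinarith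
    have h4 : 90 * ((w + 1) ^ 2 * w ^ 4) * (l + 2) ^ 2 ≤ 90 * ((4 * w ^ 2) * w ^ 4) * (32 * w) :=
      Nat.mul_le_mul (Nat.mul_le_mul_left _ (Nat.mul_le_mul_right _ h3)) hb
    have h5 : 90 * ((4 * w ^ 2) * w ^ 4) * (32 * w) = 11520 * w ^ 7 := by ring
    calc _ ≤ _ := h1
      _ = _ := h2
      _ ≤ _ := h4
      _ = _ := h5
      _ ≤ _ := Nat.mul_le_mul_left _ hwn
  have hF : side (w + 1) w ^ ((w + 1) * pts (w + 1) w) ≤ n ^ 11520 := by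
    calc side (w + 1) w ^ ((w + 1) * pts (w + 1) w)
        ≤ (2 ^ (2 * l + 4)) ^ ((w + 1) * pts (w + 1) w) := Nat.pow_le_pow_left hs _
      _ = 2 ^ ((2 * l + 4) * ((w + 1) * pts (w + 1) w)) := by rw [← pow_mul]
      _ ≤ 2 ^ (11520 * Nat.log 2 n) := Nat.pow_le_pow_right (by norm_num) hE
      _ = (2 ^ Nat.log 2 n) ^ 11520 := by rw [← pow_mul, mul_comm]
      _ ≤ n ^ 11520 := Nat.pow_le_pow_left hn1 _
  -- the second factor
  have hl2 : l + 2 ≤ 32 * (w + 1) := by nlinarith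
  have hq : 2 * pts (w + 1) w ≤ (w + 1) ^ 18 := by
    have h1 : w ^ 4 ≤ (w + 1) ^ 4 := Nat.pow_le_pow_left (by omega) 4
    have h2 : 45 * (w + 1) * w ^ 4 * (l + 2) ≤ 45 * (w + 1) * (w + 1) ^ 4 * (32 * (w + 1)) :=
      Nat.mul_le_mul (Nat.mul_le_mul_left _ h1) hl2
    have h3 : 2 ^ 12 ≤ (w + 1) ^ 12 := Nat.pow_le_pow_left (by omega) 12
    calc 2 * pts (w + 1) w ≤ 2 * (45 * (w + 1) * (w + 1) ^ 4 * (32 * (w + 1))) :=
          Nat.mul_le_mul_left _ (hp2.trans h2)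
      _ = 2880 * (w + 1) ^ 6 := by ring
      _ ≤ (w + 1) ^ 12 * (w + 1) ^ 6 := Nat.mul_le_mul_right _ (le_trans (by norm_num) h3)
      _ = (w + 1) ^ 18 := by rw [← pow_add]
  have hwn' : w + 1 ≤ n := by
    have h1 : w ≤ w ^ 7 := Nat.le_self_pow (by norm_num) w
    have h2 : Nat.log 2 n < n := Nat.log_lt_self 2 (by omega)
    omega
  have hG : (2 * pts (w + 1) w) ^ Nat.clog (w + 1) n ≤ n ^ 36 := by
    have h1 : Nat.clog (w + 1) n ≤ Nat.log (w + 1) n + 1 := by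
      apply Nat.clog_le_of_le_pow
      exact (Nat.lt_pow_succ_log_self (by omega) n).le
    calc (2 * pts (w + 1) w) ^ Nat.clog (w + 1) n
        ≤ ((w + 1) ^ 18) ^ Nat.clog (w + 1) n := Nat.pow_le_pow_left hq _
      _ = ((w + 1) ^ Nat.clog (w + 1) n) ^ 18 := by rw [← pow_mul, ← pow_mul, mul_comm]
      _ ≤ ((w + 1) ^ (Nat.log (w + 1) n + 1)) ^ 18 :=
          Nat.pow_le_pow_left (Nat.pow_le_pow_right (by omega) h1) _
      _ = ((w + 1) ^ Nat.log (w + 1) n * (w + 1)) ^ 18 := by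
          rw [pow_succ (w + 1) (Nat.log (w + 1) n)]
      _ ≤ (n * n) ^ 18 := Nat.pow_le_pow_left
          (Nat.mul_le_mul (Nat.pow_log_le_self _ (by omega)) hwn') _
      _ = n ^ 36 := by rw [← pow_two, ← pow_mul]
  have hn36 : 1 ≤ n ^ 36 := Nat.one_le_pow _ _ (by omega)
  calc side (w + 1) w ^ ((w + 1) * pts (w + 1) w) *
        (d * (2 * pts (w + 1) w) ^ Nat.clog (w + 1) n + 1)
      ≤ n ^ 11520 * (d * n ^ 36 + n ^ 36) :=
        Nat.mul_le_mul hF (Nat.add_le_add (Nat.mul_le_mul_left _ hG) hn36)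
    _ = (d + 1) * n ^ 11556 := by
        rw [show 11556 = 11520 + 36 by norm_num, pow_add]; ring

end Pool.Agent.V8H37.Roabp
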